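import Pool.Agent.Helper5.B54.Cell
import Pool.Agent.Helper5.B54.C.K0

/-!
# Cells
-/

namespace Pool.Agent.Helper5.B54

theorem cK0 : Cell 16000 9120 9600 5920 6880 :=
Cell.of (CellR.step cK0_s0 (CellR.fin cK0_f))

end Pool.Agent.Helper5.B54
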